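import Mathlib
import Pool.Agent.K3h28.NF.Ind

/-!
# Independence of the logarithms of the absolute values at the infinite places
-/

set_option autoImplicit false

namespace Pool.Agent.K3h28.NS

open NumberField IsDedekindDomain Finset
open Pool.Agent.K3h28.NF
open Pool.Agent.H437R2.Man.Low (nm)

section

variable {K : Type} [Field K] [NumberField K]

open Classical in
/-- sum over the embeddings of a function of the place -/
theorem sum_places (g : InfinitePlace K → ℝ) :
    ∑ σ : K →+* ℂ, g (InfinitePlace.mk σ) = ∑ v : InfinitePlace K, (v.mult : ℝ) * g v := by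
  rw [← Finset.sum_fiberwise (s := (univ : Finset (K →+* ℂ))) (g := fun σ => InfinitePlace.mk σ)]
  refine Finset.sum_congr rfl fun v _ => ?_
  rw [Finset.sum_congr rfl (g := fun _ => g v)]
  · rw [Finset.sum_const, InfinitePlace.card_filter_mk_eq, nsmul_eq_mul]
  · intro σ hσ
    rw [(Finset.mem_filter.1 hσ).2]

/-- the weight `2 / mult v` -/
noncomputable def wt (v : InfinitePlace K) : ℤ := if v.mult = 1 then 2 else 1

theorem mult_wt (v : InfinitePlace K) : (v.mult : ℝ) * (wt v : ℝ) = 2 := by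
  unfold wt
  rcases v.isReal_or_isComplex with h | h
  · have h1 : v.mult = 1 := by
      unfold InfinitePlace.mult
      rw [if_pos h]
    rw [h1]; norm_num
  · have h1 : v.mult = 2 := by
      unfold InfinitePlace.mult
      rw [if_neg (InfinitePlace.not_isReal_iff_isComplex.2 h)]
    rw [h1]; norm_num

theorem wt_pos (v : InfinitePlace K) : wt v ≠ 0 := by
  unfold wt; split_ifs <;> norm_num

open Classical in
/-- **Linear independence of the logarithms of the absolute values.** -/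
theorem abs_indep (J : Ideal (𝓞 K)) (hJ : J ≠ ⊥) : ∃ y₀ : ℕ, ∀ (r : ℕ)
    (v w : Fin r → HeightOneSpectrum (𝓞 K)) (b c : Fin r → 𝓞 K),
    (∀ i, Good J y₀ (v i) (b i)) → (∀ i, Good J y₀ (w i) (c i)) →
    Function.Injective (Sum.elim (fun i => nm (v i)) (fun i => nm (w i))) →
    LinearIndependent ℚ (fun p : Fin r × InfinitePlace K =>
      ((Real.log (p.2 ((c p.1 : 𝓞 K) : K)) - Real.log (p.2 ((b p.1 : 𝓞 K) : K)) : ℝ) : ℂ)) := by
  obtain ⟨y₀, hy₀⟩ := mult_indep J hJ
  refine ⟨y₀, ?_⟩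
  intro r v w b c hb hc hinj
  rw [← LinearIndependent.iff_fractionRing ℤ ℚ, Fintype.linearIndependent_iff]
  intro n hn
  have hn' : ∑ p : Fin r × InfinitePlace K, (n p : ℝ) *
      (Real.log (p.2 ((c p.1 : 𝓞 K) : K)) - Real.log (p.2 ((b p.1 : 𝓞 K) : K))) = 0 := by
    have h5 : ((∑ p : Fin r × InfinitePlace K, (n p : ℝ) *
      (Real.log (p.2 ((c p.1 : 𝓞 K) : K)) - Real.log (p.2 ((b p.1 : 𝓞 K) : K))) : ℝ) : ℂ) = 0 := by
      rw [← hn]
      push_cast
      refine Finset.sum_congr rfl fun z _ => ?_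
      rw [zsmul_eq_mul]
    exact_mod_cast h5
  -- the combined family
  set g : Fin r ⊕ Fin r → 𝓞 K := Sum.elim b c with hg
  have hg0 : ∀ i, g i ≠ 0 := by
    rintro (i | i)
    · exact (hb i).ne_zero hJ
    · exact (hc i).ne_zero hJ
  have hemb : ∀ (σ : K →+* ℂ) i, σ ((g i : 𝓞 K) : K) ≠ 0 := by
    intro σ i
    rw [Ne, map_eq_zero]
    exact_mod_cast hg0 i
  set M : Fin r ⊕ Fin r → InfinitePlace K → ℤ := fun i v =>
    wt v * Sum.elim (fun i => -n (i, v)) (fun i => n (i, v)) i with hM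
  set P : ℂ := ∏ p : (Fin r ⊕ Fin r) × (K →+* ℂ),
    (p.2 ((g p.1 : 𝓞 K) : K)) ^ (M p.1 (InfinitePlace.mk p.2)) with hP
  have hP0 : P ≠ 0 := Finset.prod_ne_zero_iff.2 fun p _ => zpow_ne_zero _ (hemb _ _)
  -- `P` is real
  have hconj : (starRingEnd ℂ) P = P := by
    rw [hP, map_prod]
    have h1 : ∀ p : (Fin r ⊕ Fin r) × (K →+* ℂ),
        (starRingEnd ℂ) ((p.2 ((g p.1 : 𝓞 K) : K)) ^ (M p.1 (InfinitePlace.mk p.2))) =
        ((ComplexEmbedding.conjugate p.2) ((g p.1 : 𝓞 K) : K)) ^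
          (M p.1 (InfinitePlace.mk (ComplexEmbedding.conjugate p.2))) := by
      intro p
      rw [map_zpow₀, InfinitePlace.mk_conjugate_eq]
      rfl
    simp only [h1]
    have hinv : Function.Involutive (fun p : (Fin r ⊕ Fin r) × (K →+* ℂ) =>
        (p.1, ComplexEmbedding.conjugate p.2)) := by
      rintro ⟨i, σ⟩
      simp only [Prod.mk.injEq, true_and]
      exact star_star σ
    exact Fintype.prod_bijective (fun p : (Fin r ⊕ Fin r) × (K →+* ℂ) =>
        (p.1, ComplexEmbedding.conjugate p.2)) hinv.bijective _ _ (fun p => rfl)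
  -- its absolute value
  have hnorm : Real.log ‖P‖ = 0 := by
    rw [hP, norm_prod, Real.log_prod (fun p _ => norm_ne_zero_iff.2 (zpow_ne_zero _ (hemb _ _)))]
    simp only [norm_zpow, Real.log_zpow]
    rw [Fintype.sum_prod_type, Fintype.sum_sum_type]
    have h1 : ∀ i, ∑ σ : K →+* ℂ, ((M i (InfinitePlace.mk σ) : ℤ) : ℝ) * Real.log ‖σ ((g i : 𝓞 K) : K)‖ =
        ∑ v : InfinitePlace K, 2 * (((Sum.elim (fun i => -n (i, v)) (fun i => n (i, v)) i : ℤ) : ℝ) *
          Real.log (v ((g i : 𝓞 K) : K))) := by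
      intro i
      have h2 : ∀ σ : K →+* ℂ, ((M i (InfinitePlace.mk σ) : ℤ) : ℝ) * Real.log ‖σ ((g i : 𝓞 K) : K)‖ =
          (fun v : InfinitePlace K => ((M i v : ℤ) : ℝ) * Real.log (v ((g i : 𝓞 K) : K)))
            (InfinitePlace.mk σ) := by
        intro σ
        simp only [InfinitePlace.apply]
      simp only [h2]
      rw [sum_places (fun v : InfinitePlace K => ((M i v : ℤ) : ℝ) * Real.log (v ((g i : 𝓞 K) : K)))]
      refine Finset.sum_congr rfl fun v _ => ?_
      rw [hM]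
      push_cast
      rw [← mul_assoc, ← mul_assoc, mult_wt, mul_assoc]
    simp only [h1]
    rw [← Finset.sum_add_distrib]
    have h3 : ∀ i : Fin r, (∑ v : InfinitePlace K, 2 * (((Sum.elim (fun i => -n (i, v))
        (fun i => n (i, v)) (Sum.inl i) : ℤ) : ℝ) * Real.log (v ((g (Sum.inl i) : 𝓞 K) : K)))) +
        ∑ v : InfinitePlace K, 2 * (((Sum.elim (fun i => -n (i, v))
        (fun i => n (i, v)) (Sum.inr i) : ℤ) : ℝ) * Real.log (v ((g (Sum.inr i) : 𝓞 K) : K))) =
        2 * ∑ v : InfinitePlace K, (n (i, v) : ℝ) * (Real.log (v ((c i : 𝓞 K) : K)) -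
          Real.log (v ((b i : 𝓞 K) : K))) := by
      intro i
      rw [← Finset.sum_add_distrib, Finset.mul_sum]
      refine Finset.sum_congr rfl fun v _ => ?_
      simp only [Sum.elim_inl, Sum.elim_inr, hg]
      push_cast
      ring
    simp only [h3]
    rw [← Finset.mul_sum, ← Fintype.sum_prod_type (fun p : Fin r × InfinitePlace K =>
      (n p : ℝ) * (Real.log (p.2 ((c p.1 : 𝓞 K) : K)) - Real.log (p.2 ((b p.1 : 𝓞 K) : K)))), hn',
      mul_zero]
  have hn1 : ‖P‖ = 1 := by
    rw [← Real.exp_log (norm_pos_iff.2 hP0), hnorm, Real.exp_zero]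
  have hsq : P ^ 2 = 1 := by
    have h1 := Complex.mul_conj P
    rw [hconj, Complex.normSq_eq_norm_sq, hn1] at h1
    rw [sq, h1]
    simp
  have h0 := hy₀ (Fin r ⊕ Fin r) (Sum.elim v w) g (by
    rintro (i | i)
    · exact hb i
    · exact hc i) (by
    have : (fun i => nm (Sum.elim v w i)) = Sum.elim (fun i => nm (v i)) (fun i => nm (w i)) := by
      funext i
      rcases i with i | i <;> rfl
    rw [this]
    exact hinj) (fun p => 2 * M p.1 (InfinitePlace.mk p.2)) (by
    rw [← hsq, hP, ← Finset.prod_pow]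
    refine Finset.prod_congr rfl fun p _ => ?_
    rw [← zpow_natCast, ← zpow_mul, mul_comm]
    norm_cast)
  rintro ⟨i, v'⟩
  have h1 := congrFun h0 (Sum.inr i, v'.embedding)
  simp only [Pi.zero_apply, hM, Sum.elim_inr, InfinitePlace.mk_embedding] at h1
  rcases mul_eq_zero.1 h1 with h2 | h2
  · norm_num at h2
  · rcases mul_eq_zero.1 h2 with h3 | h3
    · exact absurd h3 (wt_pos v')
    · exact h3

end

end Pool.Agent.K3h28.NS
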