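import Mathlib
import Pool.Agent.K3h28.NS.Abs
import Pool.Agent.K3h28.NF.Fin
import Pool.Agent.K3h28.AF.Sch

/-!
# Schanuel's conjecture up to bounded degree for the absolute values of integers of number fields
-/

set_option autoImplicit false

namespace Pool.Agent.K3h28.NS

open NumberField IsDedekindDomain Finset Module
open Pool.Agent.K3h28.NF
open Pool.Agent.K3h28.AF (good_of_indep)
open Pool.Agent.H437R2.Man.Low (nm)
open Pool.Agent.H301R2.SSE (QB mem_QB)
open Pool.Agent.W245 (IndepOver IndepT famExt famExt_finite)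
open Pool.Agent.Y918.SC (Good mT GoodT one_var)

/-- the numbers `ζ_i + ∑_v β_iv log |x|_v` -/
noncomputable def zv {K : Type} [Field K] [NumberField K] {N : ℕ}
    (ζ : Fin N → ℂ) (β : Fin N → InfinitePlace K → ℂ) (x : K) : Fin N → ℂ :=
  fun i => ζ i + ∑ v, β i v * (Real.log (v x) : ℂ)

theorem abs_alg {K : Type} [Field K] [NumberField K] (v : InfinitePlace K) (x : K) :
    IsAlgebraic ℚ ((v x : ℝ) : ℂ) := by
  have h1 : ((v x : ℝ) : ℂ) ^ 2 = v.embedding x * (starRingEnd ℂ) (v.embedding x) := by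
    rw [Complex.mul_conj, Complex.normSq_eq_norm_sq, InfinitePlace.norm_embedding_eq]
    push_cast
    rfl
  have h2 : (starRingEnd ℂ) (v.embedding x) = (ComplexEmbedding.conjugate v.embedding) x := rfl
  have h3 : IsAlgebraic ℚ (((v x : ℝ) : ℂ) ^ 2) := by
    rw [h1, h2]
    exact (isAlgebraic_emb _ _).mul (isAlgebraic_emb _ _)
  exact h3.of_pow (by norm_num)

/-- **One variable.** -/
theorem sch_one (K : Type) [Field K] [NumberField K] (N D d : ℕ) (ε : ℝ) (hε : 0 < ε) :
    ∃ X₀ : ℕ, ∀ X ≥ X₀, ∀ (ζ : Fin N → ℂ) (β : Fin N → InfinitePlace K → ℂ),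
      (∀ i v, IsAlgebraic ℚ (β i v)) → LinearIndependent ℚ β →
    ∀ W : Submodule QB ℂ, Module.Finite QB W → finrank QB W ≤ d →
    ∀ A : Finset (𝓞 K), A ⊆ bx K X → (∀ x ∈ A, x ≠ 0 ∧
      ¬ ∃ T : Fin N → Fin N ⊕ Fin N, Function.Injective T ∧
        IndepOver W (mT (D := D) (zv ζ β (x : K)) T)) → (A.card : ℝ) ≤ ε * (bx K X).card := by
  classical
  obtain ⟨J, j, hJ, hj, -, hcubes⟩ := dense_cube K
  obtain ⟨r, hr⟩ := one_var N D d
  obtain ⟨y₀, hy₀⟩ := abs_indep (K := K) J hJ
  obtain ⟨X₀, hX₀⟩ := hcubes r ε hε y₀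
  refine ⟨X₀, fun X hX ζ β hβa hβ W hWf hWd A hA hbad => ?_⟩
  by_contra hcon
  push Not at hcon
  obtain ⟨a, v, w, b, c, ha, hv, hw, hinj, hcube⟩ := hX₀ X hX A hA hcon.le
  have hb0 : ∀ i, b i ≠ 0 := fun i => (hv i).ne_zero hJ
  have hc0 : ∀ i, c i ≠ 0 := fun i => (hw i).ne_zero hJ
  have hpl : ∀ (u : InfinitePlace K) (x : 𝓞 K), x ≠ 0 → u (x : K) ≠ 0 := by
    intro u x hx
    rw [Ne, map_eq_zero]
    exact_mod_cast hx
  set w' : Fin r → InfinitePlace K → ℂ := fun i u =>
    ((Real.log (u ((c i : 𝓞 K) : K)) - Real.log (u ((b i : 𝓞 K) : K)) : ℝ) : ℂ) with hw'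
  have hli : LinearIndependent ℚ (fun p : Fin r × InfinitePlace K => w' p.1 p.2) :=
    hy₀ r v w b c hv hw hinj
  have halg : ∀ i u, IsAlgebraic ℚ (Complex.exp (w' i u)) := by
    intro i u
    have h1 := hpl u _ (hc0 i)
    have h2 := hpl u _ (hb0 i)
    simp only [hw']
    rw [← Complex.ofReal_exp, ← Real.log_div h1 h2, Real.exp_log (by positivity)]
    push_cast
    rw [div_eq_mul_inv]
    exact (abs_alg u _).mul (abs_alg u _).inv
  set v₀ : InfinitePlace K → ℂ := fun u => ((Real.log (u (a : K)) +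
    ∑ i, Real.log (u ((b i : 𝓞 K) : K)) - r * Real.log (u (j : K)) : ℝ) : ℂ) with hv₀
  obtain ⟨S, T, hT, hS⟩ := hr W hWf hWd (fun i => ζ i + ∑ u, β i u * v₀ u)
    (fun (s : Fin r) (i : Fin N) => ∑ u, β i u * w' s u) (good_of_indep w' halg hli β hβa hβ)
  obtain ⟨n, hn, hnS⟩ := hcube S
  obtain ⟨hn0, hnbad⟩ := hbad n hn
  apply hnbad
  refine ⟨T, hT, ?_⟩
  have hlog : ∀ u : InfinitePlace K, (Real.log (u (n : K)) : ℂ) = v₀ u + ∑ i ∈ S, w' i u := by
    intro u
    have h2 := congrArg (fun z : 𝓞 K => Real.log (u (z : K))) hnS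
    simp only [map_mul, map_pow, map_prod] at h2
    have hne : ∀ i ∈ (univ : Finset (Fin r)),
        u (((if i ∈ S then c i else b i : 𝓞 K)) : K) ≠ 0 := by
      intro i _
      split_ifs
      · exact hpl u _ (hc0 i)
      · exact hpl u _ (hb0 i)
    rw [Real.log_mul (pow_ne_zero _ (hpl u _ hj)) (hpl u _ hn0), Real.log_pow,
      Real.log_mul (hpl u _ ha) (Finset.prod_ne_zero_iff.2 hne), Real.log_prod hne] at h2
    have h3 : ∀ i : Fin r, Real.log (u (((if i ∈ S then c i else b i : 𝓞 K)) : K)) =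
        Real.log (u ((b i : 𝓞 K) : K)) +
          (if i ∈ S then Real.log (u ((c i : 𝓞 K) : K)) - Real.log (u ((b i : 𝓞 K) : K)) else 0) := by
      intro i
      split_ifs
      · ring
      · ring
    simp only [h3] at h2
    rw [Finset.sum_add_distrib, Finset.sum_ite_mem, Finset.univ_inter] at h2
    simp only [hv₀, hw']
    rw [← Complex.ofReal_sum, ← Complex.ofReal_add]
    congr 1
    linarith
  have h1 : zv ζ β (n : K) = (fun i => ζ i + ∑ u, β i u * v₀ u) +
      ∑ s ∈ S, (fun (i : Fin N) => ∑ u, β i u * w' s u) := by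
    funext i
    rw [Pi.add_apply, Finset.sum_apply, zv, add_assoc]
    congr 1
    rw [Finset.sum_comm, ← Finset.sum_add_distrib]
    refine Finset.sum_congr rfl fun u _ => ?_
    rw [hlog u, mul_add, Finset.mul_sum]
  rw [h1]
  exact hS

open Classical in
/-- counting tuples by the first coordinate -/
theorem count_dep (k : ℕ) (T : Fin (k + 1) → Type) (F : ∀ i, Finset (T i))
    (bad : (∀ i, T i) → Prop) (ε : ℝ) (hε : 0 < ε) (E : Finset (T 0)) (hE : E ⊆ F 0)
    (hEc : (E.card : ℝ) ≤ ε / 2 * (F 0).card)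
    (h : ∀ a ∈ F 0, a ∉ E → (((Fintype.piFinset fun i : Fin k => F i.succ).filter
      (fun m => bad (Fin.cons a m : ∀ i, T i))).card : ℝ) ≤ ε / 2 * ∏ i : Fin k, ((F i.succ).card : ℝ)) :
    (((Fintype.piFinset F).filter bad).card : ℝ) ≤ ε * ∏ i, ((F i).card : ℝ) := by
  set B := (Fintype.piFinset F).filter bad with hB
  set V : ℝ := ∏ i : Fin k, ((F i.succ).card : ℝ) with hV
  have hV0 : 0 ≤ V := Finset.prod_nonneg (fun _ _ => by positivity)
  have hfib : B.card = ∑ a ∈ F 0, (B.filter (fun x => x 0 = a)).card := by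
    apply Finset.card_eq_sum_card_fiberwise
    intro n hn
    have hn' : n ∈ B := hn
    rw [hB, Finset.mem_filter, Fintype.mem_piFinset] at hn'
    exact hn'.1 0
  have hle : ∀ a, (B.filter (fun x => x 0 = a)).card ≤
      ((Fintype.piFinset fun i : Fin k => F i.succ).filter
        (fun m => bad (Fin.cons a m : ∀ i, T i))).card := by
    intro a
    apply Finset.card_le_card_of_injOn (fun x => Fin.tail x)
    · intro n hn
      have hn' : n ∈ B.filter (fun x => x 0 = a) := hn
      rw [Finset.mem_filter, hB, Finset.mem_filter, Fintype.mem_piFinset] at hn'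
      have hcons : (Fin.cons a (Fin.tail n) : ∀ i, T i) = n := by
        rw [← hn'.2]; exact Fin.cons_self_tail n
      show Fin.tail n ∈ _
      rw [Finset.mem_coe, Finset.mem_filter, Fintype.mem_piFinset]
      refine ⟨fun j => hn'.1.1 j.succ, ?_⟩
      rw [hcons]
      exact hn'.1.2
    · intro n hn m hm h
      have hn' : n ∈ B.filter (fun x => x 0 = a) := hn
      have hm' : m ∈ B.filter (fun x => x 0 = a) := hm
      rw [Finset.mem_filter] at hn' hm'
      rw [← Fin.cons_self_tail n, ← Fin.cons_self_tail m, hn'.2, hm'.2]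
      have : Fin.tail n = Fin.tail m := h
      rw [this]
  have htriv : ∀ a, (((Fintype.piFinset fun i : Fin k => F i.succ).filter
        (fun m => bad (Fin.cons a m : ∀ i, T i))).card : ℝ) ≤ V := by
    intro a
    have h1 := Finset.card_filter_le (Fintype.piFinset fun i : Fin k => F i.succ)
      (fun m => bad (Fin.cons a m : ∀ i, T i))
    rw [Fintype.card_piFinset] at h1
    rw [hV]
    exact_mod_cast h1
  calc (B.card : ℝ) = ∑ a ∈ F 0, ((B.filter (fun x => x 0 = a)).card : ℝ) := by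
        rw [hfib]; push_cast; rfl
    _ ≤ ∑ a ∈ F 0, ((if a ∈ E then V else 0) + ε / 2 * V) := by
        apply Finset.sum_le_sum
        intro a ha
        have h1 : ((B.filter (fun x => x 0 = a)).card : ℝ) ≤
          (((Fintype.piFinset fun i : Fin k => F i.succ).filter
            (fun m => bad (Fin.cons a m : ∀ i, T i))).card : ℝ) := by
          exact_mod_cast hle a
        by_cases haA : a ∈ E
        · rw [if_pos haA]
          have h2 := htriv a
          have h3 : (0 : ℝ) ≤ ε / 2 * V := mul_nonneg (by linarith) hV0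
          linarith
        · rw [if_neg haA, zero_add]
          exact h1.trans (h a ha haA)
    _ = (E.card : ℝ) * V + (F 0).card * (ε / 2 * V) := by
        rw [Finset.sum_add_distrib, ← Finset.sum_filter, Finset.filter_mem_eq_inter,
          Finset.inter_eq_right.2 hE, Finset.sum_const, Finset.sum_const,
          nsmul_eq_mul, nsmul_eq_mul]
    _ ≤ ε * (((F 0).card : ℝ) * V) := arith ε _ V _ hEc hV0
    _ = ε * ∏ i, ((F i).card : ℝ) := by
        rw [Fin.prod_univ_succ]

/-- the exceptional tuples -/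
def BadT {k : ℕ} (K : Fin k → Type) [∀ i, Field (K i)] [∀ i, NumberField (K i)] (N D : ℕ)
    (W : Submodule QB ℂ) (ζ : Fin k → Fin N → ℂ) (β : ∀ i, Fin N → InfinitePlace (K i) → ℂ)
    (x : ∀ i, 𝓞 (K i)) : Prop :=
  (∀ i, x i ≠ 0) ∧ ¬ GoodT D W (fun i => zv (ζ i) (β i) (x i : K i))

open Classical in
/-- **Tuples.** -/
theorem sch_tup (N D k : ℕ) : ∀ (K : Fin k → Type) [∀ i, Field (K i)] [∀ i, NumberField (K i)]
    (d : ℕ) (ε : ℝ), 0 < ε → ∃ X₀ : ℕ, ∀ X ≥ X₀,
    ∀ (ζ : Fin k → Fin N → ℂ) (β : ∀ i, Fin N → InfinitePlace (K i) → ℂ),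
      (∀ i j v, IsAlgebraic ℚ (β i j v)) → (∀ i, LinearIndependent ℚ (β i)) →
    ∀ W : Submodule QB ℂ, Module.Finite QB W → finrank QB W ≤ d →
      (((Fintype.piFinset fun i => bx (K i) X).filter (BadT K N D W ζ β)).card : ℝ) ≤
        ε * ∏ i, ((bx (K i) X).card : ℝ) := by
  induction k with
  | zero =>
    intro K _ _ d ε hε
    refine ⟨0, fun X _ ζ β _ _ W _ _ => ?_⟩
    rw [Finset.filter_false_of_mem]
    · simp [hε.le]
    · intro x _
      rintro ⟨-, h⟩
      exact h ⟨fun i => i.elim0, fun i => i.elim0, IndepT.zero _ _⟩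
  | succ k ih =>
    intro K _ _ d ε hε
    obtain ⟨X₁, hX₁⟩ := sch_one (K 0) N D d (ε / 2) (by positivity)
    obtain ⟨X₂, hX₂⟩ := ih (fun i => K i.succ) (d * Fintype.card (Fin N → Fin (D + 1))) (ε / 2)
      (by positivity)
    refine ⟨max X₁ X₂, fun X hX ζ β hβa hβ W hWf hWd => ?_⟩
    refine count_dep k (fun i => 𝓞 (K i)) (fun i => bx (K i) X) (BadT K N D W ζ β) ε hε
      ((bx (K 0) X).filter (fun a : 𝓞 (K 0) => a ≠ 0 ∧
        ¬ ∃ T : Fin N → Fin N ⊕ Fin N, Function.Injective T ∧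
        IndepOver W (mT (D := D) (zv (ζ 0) (β 0) (a : K 0)) T)))
      (Finset.filter_subset _ _) ?_ ?_
    · exact hX₁ X (le_trans (le_max_left _ _) hX) (ζ 0) (β 0) (hβa 0) (hβ 0) W hWf hWd _
        (Finset.filter_subset _ _) (fun a ha => (Finset.mem_filter.1 ha).2)
    · intro a ha haE
      by_cases h0 : a = 0
      · rw [Finset.filter_false_of_mem]
        · simp only [Finset.card_empty, Nat.cast_zero]
          positivity
        · intro m _ hm
          exact hm.1 0 h0
      · obtain ⟨T₀, hT₀, h₀⟩ : ∃ T : Fin N → Fin N ⊕ Fin N, Function.Injective T ∧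
            IndepOver W (mT (D := D) (zv (ζ 0) (β 0) (a : K 0)) T) := by
          by_contra hcon
          exact haE (Finset.mem_filter.2 ⟨ha, h0, hcon⟩)
        obtain ⟨hfin, hrk⟩ := famExt_finite W d hWd (mT (D := D) (zv (ζ 0) (β 0) (a : K 0)) T₀)
        have h1 := hX₂ X (le_trans (le_max_right _ _) hX) (fun i => ζ i.succ) (fun i => β i.succ)
          (fun i => hβa i.succ) (fun i => hβ i.succ) _ hfin hrk
        refine le_trans ?_ h1
        apply Nat.cast_le.2
        apply Finset.card_le_card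
        intro m hm
        rw [Finset.mem_filter] at hm ⊢
        refine ⟨hm.1, fun i => hm.2.1 i.succ, fun hgood => hm.2.2 ?_⟩
        have h2 := GoodT.cons hT₀ h₀ hgood
        convert h2 using 1
        funext i
        refine Fin.cases ?_ (fun j => ?_) i
        · simp
        · simp

end Pool.Agent.K3h28.NS
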