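import Mathlib
import Pool.Agent.K3h28.NS.Sch

/-!
# From boxes to the canonical regions
-/

set_option autoImplicit false

namespace Pool.Agent.K3h28.NS

open NumberField IsDedekindDomain Finset Module
open Pool.Agent.K3h28.NF
open Pool.Agent.H301R2.SSE (QB mem_QB)

open Classical in
theorem to_region (k : ℕ) (K : Fin k → Type) [∀ i, Field (K i)] [∀ i, NumberField (K i)] :
    ∃ R : ℝ, 0 < R ∧ ∀ (ε : ℝ), 0 < ε → ∀ X₁ : ℕ, ∀ X : ℝ, max (X₁ : ℝ) 1 ≤ X →
      ∃ N₁ : ℕ, X₁ ≤ N₁ ∧ (reg K X).Finite ∧ ∀ bad : (∀ i, 𝓞 (K i)) → Prop,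
        (((Fintype.piFinset fun i => bx (K i) N₁).filter bad).card : ℝ) ≤
          ε / R * ∏ i, ((bx (K i) N₁).card : ℝ) →
        ({x | x ∈ reg K X ∧ bad x}.ncard : ℝ) ≤ ε * (reg K X).ncard := by
  choose C hC1 hCup hClow using fun i => region (K i)
  set c : ℝ := 1 + ∑ i, C i with hc
  have hC0 : ∀ i, 0 ≤ C i := fun i => by linarith [hC1 i]
  have hc1 : 1 ≤ c := by
    have : 0 ≤ ∑ i, C i := Finset.sum_nonneg (fun i _ => hC0 i)
    linarith
  have hCc : ∀ i, C i ≤ c := by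
    intro i
    have := Finset.single_le_sum (f := C) (fun i _ => hC0 i) (mem_univ i)
    linarith
  set R : ℝ := (2 * c + 3) * c with hR
  have hR0 : 0 < R := by positivity
  set s : ℕ := ∑ i, Module.finrank ℚ (K i) with hs
  refine ⟨R ^ s, by positivity, fun ε hε X₁ X hX => ?_⟩
  have hX1 : 1 ≤ X := (le_max_right _ _).trans hX
  have hX0 : 0 ≤ X := by linarith
  have hXX : (X₁ : ℝ) ≤ X := (le_max_left _ _).trans hX
  set N₁ := ⌈c * X⌉₊ with hN₁
  set N₂ := ⌊X / c⌋₊ with hN₂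
  have h1 : c * X ≤ N₁ := Nat.le_ceil _
  have h1' : (N₁ : ℝ) < c * X + 1 := Nat.ceil_lt_add_one (by positivity)
  have h2 : (N₂ : ℝ) ≤ X / c := Nat.floor_le (by positivity)
  have h2' : X / c < N₂ + 1 := Nat.lt_floor_add_one _
  have hN₁X : X₁ ≤ N₁ := by
    have h3 : (X₁ : ℝ) ≤ N₁ := by
      refine hXX.trans (le_trans ?_ h1)
      nlinarith
    exact_mod_cast h3
  have hsub : reg K X ⊆ ((Fintype.piFinset fun i => bx (K i) N₁ : Finset (∀ i, 𝓞 (K i))) : Set _) := by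
    intro x hx
    rw [Finset.mem_coe, Fintype.mem_piFinset]
    intro i
    apply hCup i X (x i) (hx i)
    refine le_trans ?_ h1
    exact mul_le_mul_of_nonneg_right (hCc i) hX0
  have hsup : ((Fintype.piFinset fun i => bx (K i) N₂ : Finset (∀ i, 𝓞 (K i))) : Set _) ⊆ reg K X := by
    intro x hx
    rw [Finset.mem_coe, Fintype.mem_piFinset] at hx
    intro i
    apply hClow i X (x i) N₂ (hx i)
    have h3 : c * N₂ ≤ X := by
      rw [le_div_iff₀ (by positivity)] at h2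
      linarith
    refine le_trans ?_ h3
    exact mul_le_mul_of_nonneg_right (hCc i) (by positivity)
  have hfin : (reg K X).Finite := (Finset.finite_toSet _).subset hsub
  refine ⟨N₁, hN₁X, hfin, fun bad h3 => ?_⟩
  have h4 : ({x | x ∈ reg K X ∧ bad x}.ncard : ℝ) ≤
      (((Fintype.piFinset fun i => bx (K i) N₁).filter bad).card : ℝ) := by
    apply Nat.cast_le.2
    rw [← Set.ncard_coe_finset]
    apply Set.ncard_le_ncard _ (Finset.finite_toSet _)
    rintro x ⟨hx1, hx2⟩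
    rw [Finset.mem_coe, Finset.mem_filter]
    exact ⟨hsub hx1, hx2⟩
  have h5 : (∏ i, ((bx (K i) N₂).card : ℝ)) ≤ (reg K X).ncard := by
    have h6 : (Fintype.piFinset fun i => bx (K i) N₂).card ≤ (reg K X).ncard := by
      rw [← Set.ncard_coe_finset]
      exact Set.ncard_le_ncard hsup hfin
    rw [Fintype.card_piFinset] at h6
    exact_mod_cast h6
  have h6 : (∏ i, ((bx (K i) N₁).card : ℝ)) ≤ R ^ s * ∏ i, ((bx (K i) N₂).card : ℝ) := by
    rw [hs, ← Finset.prod_pow_eq_pow_sum, ← Finset.prod_mul_distrib]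
    apply Finset.prod_le_prod
    · intro i _; positivity
    · intro i _
      rw [card_bx, card_bx]
      push_cast
      rw [← mul_pow]
      apply pow_le_pow_left₀ (by positivity)
      have h7 : X ≤ c * (N₂ + 1) := by
        rw [div_lt_iff₀ (by positivity)] at h2'
        linarith
      have h8 : (0 : ℝ) ≤ N₂ := by positivity
      calc 2 * (N₁ : ℝ) + 1 ≤ 2 * (c * X + 1) + 1 := by linarith
        _ ≤ (2 * c + 3) * X := by nlinarith
        _ ≤ (2 * c + 3) * (c * (N₂ + 1)) := by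
            apply mul_le_mul_of_nonneg_left h7 (by positivity)
        _ = R * (N₂ + 1) := by rw [hR]; ring
        _ ≤ R * (2 * N₂ + 1) := by
            apply mul_le_mul_of_nonneg_left _ hR0.le
            linarith
  exact arith2 ε (R ^ s) _ _ _ _ _ (pow_pos hR0 s) hε h4 h3 h6 h5

theorem main (N D k d : ℕ) (K : Fin k → Type) [∀ i, Field (K i)] [∀ i, NumberField (K i)]
    (ε : ℝ) (hε : 0 < ε) : ∃ X₀ : ℝ, ∀ X ≥ X₀, (reg K X).Finite ∧
    ∀ (ζ : Fin k → Fin N → ℂ) (β : ∀ i, Fin N → InfinitePlace (K i) → ℂ),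
      (∀ i j v, IsAlgebraic ℚ (β i j v)) → (∀ i, LinearIndependent ℚ (β i)) →
    ∀ W : Submodule QB ℂ, Module.Finite QB W → finrank QB W ≤ d →
      ({x | x ∈ reg K X ∧ BadT K N D W ζ β x}.ncard : ℝ) ≤ ε * (reg K X).ncard := by
  classical
  obtain ⟨R, hR0, hR⟩ := to_region k K
  obtain ⟨X₁, hX₁⟩ := sch_tup N D k K d (ε / R) (by positivity)
  refine ⟨max (X₁ : ℝ) 1, fun X hX => ?_⟩
  obtain ⟨N₁, hN₁, hfin, h⟩ := hR ε hε X₁ X hX
  refine ⟨hfin, fun ζ β hβa hβ W hWf hWd => ?_⟩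
  refine h (BadT K N D W ζ β) ?_
  convert hX₁ N₁ hN₁ ζ β hβa hβ W hWf hWd

end Pool.Agent.K3h28.NS
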